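import Mathlib

set_option autoImplicit false

open Filter Topology MeasureTheory

namespace Pool.MP_db9878_lc.LargeAverages

/-- `e(x) = exp(2 π i x)`. -/
noncomputable def ee (x : ℝ) : ℂ := Complex.exp (2 * Real.pi * x * Complex.I)

/-- The trigonometric polynomial `∑_{n ∈ Λ} c(n) e(n x)`. -/
noncomputable def tp (Λ : Finset ℤ) (c : ℤ → ℂ) (x : ℝ) : ℂ :=
  ∑ n ∈ Λ, c n * ee (n * x)

lemma ee_norm (x : ℝ) : ‖ee x‖ = 1 := by
  unfold ee
  rw [show (2 * Real.pi * x * Complex.I : ℂ) = ((2 * Real.pi * x : ℝ) : ℂ) * Complex.I by push_cast; ring]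
  exact Complex.norm_exp_ofReal_mul_I _

lemma ee_add (x y : ℝ) : ee (x + y) = ee x * ee y := by
  unfold ee
  rw [← Complex.exp_add]
  congr 1
  push_cast
  ring

lemma ee_conj (x : ℝ) : (starRingEnd ℂ) (ee x) = ee (-x) := by
  unfold ee
  rw [← Complex.exp_conj]
  congr 1
  have h2 : (starRingEnd ℂ) 2 = 2 := Complex.conj_eq_iff_real.mpr ⟨2, by norm_num⟩
  simp [h2]

lemma ee_zero : ee 0 = 1 := by simp [ee]

lemma unim (z : ℂ) : ∃ b : ℂ, ‖b‖ ≤ 1 ∧ b * z = (‖z‖ : ℂ) := by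
  by_cases hz : z = 0
  · exact ⟨0, by simp, by simp [hz]⟩
  · have hz' : (‖z‖ : ℂ) ≠ 0 := by exact_mod_cast (norm_ne_zero_iff.mpr hz)
    refine ⟨(starRingEnd ℂ) z / ‖z‖, ?_, ?_⟩
    · rw [norm_div]; simp [hz]
    · rw [div_mul_eq_mul_div, mul_comm, Complex.mul_conj, Complex.normSq_eq_norm_sq]
      field_simp
      push_cast; ring

/-- The polynomial with the absolute values of the coefficients. -/
noncomputable def tpa (Λ : Finset ℤ) (c : ℤ → ℂ) (x : ℝ) : ℂ := tp Λ (fun n => (‖c n‖ : ℂ)) x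

lemma tpa_symm (Λ : Finset ℤ) (c : ℤ → ℂ) (x y : ℝ) : ‖tpa Λ c (x - y)‖ = ‖tpa Λ c (y - x)‖ := by
  rw [← RCLike.norm_conj (tpa Λ c (x - y))]
  congr 1
  unfold tpa tp
  rw [map_sum]
  apply Finset.sum_congr rfl
  intro n _
  rw [map_mul, ee_conj, Complex.conj_ofReal]
  congr 2
  ring

lemma bessel (Λ : Finset ℤ) (c : ℤ → ℂ) (hc : ∑ n ∈ Λ, ‖c n‖ ≤ 1)
    (F : Finset ℝ) (s ε δ : ℝ) (hε : 0 ≤ ε) (hδ : 0 ≤ δ)
    (h1 : ∀ x ∈ F, ε ≤ ‖tp Λ c (x + s)‖)
    (h2 : ∀ x ∈ F, ∀ x' ∈ F, x ≠ x' → ‖tpa Λ c (x - x')‖ ≤ δ) :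
    ε ^ 2 * F.card ≤ 1 + F.card * δ := by
  classical
  rcases F.eq_empty_or_nonempty with rfl | hF
  · simp
  have hMpos : (0 : ℝ) < F.card := by exact_mod_cast hF.card_pos
  choose b hb1 hb2 using unim
  let β : ℝ → ℂ := fun x => b (tp Λ c (x + s))
  let u : ℤ → ℂ := fun n => ∑ x ∈ F, β x * ee (n * x)
  have step1 : ((∑ x ∈ F, ‖tp Λ c (x + s)‖ : ℝ) : ℂ) = ∑ n ∈ Λ, c n * ee (n * s) * u n := by
    push_cast
    have : ∀ x ∈ F, ((‖tp Λ c (x + s)‖ : ℝ) : ℂ) = ∑ n ∈ Λ, c n * ee (n * s) * (β x * ee (n * x)) := by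
      intro x _
      rw [← hb2 (tp Λ c (x + s))]
      conv_lhs => rw [tp]
      rw [Finset.mul_sum]
      apply Finset.sum_congr rfl
      intro n _
      rw [mul_add, ee_add]
      simp only [β, tp]
      ring
    rw [Finset.sum_congr rfl this, Finset.sum_comm]
    apply Finset.sum_congr rfl
    intro n _
    simp only [u]
    rw [Finset.mul_sum]
  have step2 : ∑ x ∈ F, ‖tp Λ c (x + s)‖ ≤ ∑ n ∈ Λ, ‖c n‖ * ‖u n‖ := by
    have h0 : 0 ≤ ∑ x ∈ F, ‖tp Λ c (x + s)‖ := Finset.sum_nonneg fun _ _ => norm_nonneg _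
    have : ∑ x ∈ F, ‖tp Λ c (x + s)‖ = ‖((∑ x ∈ F, ‖tp Λ c (x + s)‖ : ℝ) : ℂ)‖ := by
      rw [Complex.norm_real, Real.norm_of_nonneg h0]
    rw [this, step1]
    refine (norm_sum_le _ _).trans ?_
    apply Finset.sum_le_sum
    intro n _
    rw [norm_mul, norm_mul, ee_norm, mul_one]
  have step4 : ∑ n ∈ Λ, ‖c n‖ * ‖u n‖ ^ 2 ≤ F.card * (1 + F.card * δ) := by
    have e1 : ((∑ n ∈ Λ, ‖c n‖ * ‖u n‖ ^ 2 : ℝ) : ℂ) = ∑ x ∈ F, ∑ x' ∈ F, β x * (starRingEnd ℂ) (β x') * tpa Λ c (x - x') := by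
      push_cast
      have : ∀ n ∈ Λ, (‖c n‖ : ℂ) * ((‖u n‖ : ℝ) : ℂ) ^ 2 = ∑ x ∈ F, ∑ x' ∈ F, β x * (starRingEnd ℂ) (β x') * ((‖c n‖ : ℂ) * ee (n * (x - x'))) := by
        intro n _
        have h3 : ((‖u n‖ : ℝ) : ℂ) ^ 2 = u n * (starRingEnd ℂ) (u n) := by
          rw [Complex.mul_conj, Complex.normSq_eq_norm_sq]; push_cast; rfl
        rw [h3]
        simp only [u, map_sum, map_mul, ee_conj]
        rw [Finset.sum_mul_sum, Finset.mul_sum]
        apply Finset.sum_congr rfl; intro x _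
        rw [Finset.mul_sum]
        apply Finset.sum_congr rfl; intro x' _
        rw [show ((n : ℝ) * (x - x')) = n * x + -(n * x') by ring, ee_add]
        ring
      rw [Finset.sum_congr rfl this, Finset.sum_comm]
      apply Finset.sum_congr rfl; intro x _
      rw [Finset.sum_comm]
      apply Finset.sum_congr rfl; intro x' _
      rw [← Finset.mul_sum]
      rfl
    have e2 : ∑ n ∈ Λ, ‖c n‖ * ‖u n‖ ^ 2 = ‖((∑ n ∈ Λ, ‖c n‖ * ‖u n‖ ^ 2 : ℝ) : ℂ)‖ := by
      rw [Complex.norm_real, Real.norm_of_nonneg (Finset.sum_nonneg fun _ _ => by positivity)]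
    rw [e2, e1]
    refine (norm_sum_le _ _).trans ?_
    have e3 : ∀ x ∈ F, ‖∑ x' ∈ F, β x * (starRingEnd ℂ) (β x') * tpa Λ c (x - x')‖ ≤ 1 + F.card * δ := by
      intro x hx
      refine (norm_sum_le _ _).trans ?_
      have e4 : ∀ x' ∈ F, ‖β x * (starRingEnd ℂ) (β x') * tpa Λ c (x - x')‖ ≤ (if x' = x then 1 else 0) + δ := by
        intro x' hx'
        rw [norm_mul, norm_mul, RCLike.norm_conj]
        have k1 : ‖β x‖ ≤ 1 := hb1 _
        have k2 : ‖β x'‖ ≤ 1 := hb1 _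
        have k3 : ‖tpa Λ c (x - x')‖ ≤ (if x' = x then 1 else 0) + δ := by
          split_ifs with hcc
          · subst hcc
            have : ‖tpa Λ c (x' - x')‖ ≤ 1 := by
              unfold tpa tp
              refine (norm_sum_le _ _).trans ?_
              simpa [ee_zero] using hc
            linarith
          · rw [zero_add]; exact h2 x hx x' hx' (Ne.symm hcc)
        have k4 : ‖β x‖ * ‖β x'‖ ≤ 1 := mul_le_one₀ k1 (norm_nonneg _) k2
        calc ‖β x‖ * ‖β x'‖ * ‖tpa Λ c (x - x')‖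
            ≤ 1 * ‖tpa Λ c (x - x')‖ := by gcongr
          _ ≤ (if x' = x then 1 else 0) + δ := by rw [one_mul]; exact k3
      refine (Finset.sum_le_sum e4).trans ?_
      rw [Finset.sum_add_distrib]
      simp [hx]
    refine (Finset.sum_le_sum e3).trans ?_
    simp only [Finset.sum_const, nsmul_eq_mul]
    exact le_rfl
  have step3 : (∑ n ∈ Λ, ‖c n‖ * ‖u n‖) ^ 2 ≤ ∑ n ∈ Λ, ‖c n‖ * ‖u n‖ ^ 2 := by
    have hcs := Finset.sum_mul_sq_le_sq_mul_sq Λ (fun n => √‖c n‖) (fun n => √‖c n‖ * ‖u n‖)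
    have r1 : ∑ n ∈ Λ, √‖c n‖ * (√‖c n‖ * ‖u n‖) = ∑ n ∈ Λ, ‖c n‖ * ‖u n‖ := by
      apply Finset.sum_congr rfl; intro n _
      rw [← mul_assoc, Real.mul_self_sqrt (norm_nonneg _)]
    have r2 : ∑ n ∈ Λ, √‖c n‖ ^ 2 = ∑ n ∈ Λ, ‖c n‖ := by
      apply Finset.sum_congr rfl; intro n _
      rw [Real.sq_sqrt (norm_nonneg _)]
    have r3 : ∑ n ∈ Λ, (√‖c n‖ * ‖u n‖) ^ 2 = ∑ n ∈ Λ, ‖c n‖ * ‖u n‖ ^ 2 := by
      apply Finset.sum_congr rfl; intro n _
      rw [mul_pow, Real.sq_sqrt (norm_nonneg _)]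
    rw [r1, r2, r3] at hcs
    refine hcs.trans ?_
    have : 0 ≤ ∑ n ∈ Λ, ‖c n‖ * ‖u n‖ ^ 2 := Finset.sum_nonneg fun _ _ => by positivity
    exact mul_le_of_le_one_left this hc
  have low : F.card * ε ≤ ∑ x ∈ F, ‖tp Λ c (x + s)‖ := by
    rw [← nsmul_eq_mul]
    exact Finset.card_nsmul_le_sum _ _ _ h1
  have key : (F.card * ε) ^ 2 ≤ F.card * (1 + F.card * δ) := by
    have : 0 ≤ F.card * ε := by positivity
    exact ((pow_le_pow_left₀ this (low.trans step2) 2).trans step3).trans step4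
  have : F.card * (ε ^ 2 * F.card) ≤ F.card * (1 + F.card * δ) := by
    calc F.card * (ε ^ 2 * F.card) = (F.card * ε) ^ 2 := by ring
      _ ≤ F.card * (1 + F.card * δ) := key
  exact le_of_mul_le_mul_left this hMpos

lemma int_ee (k : ℤ) (K : ℕ) : ∫ g in (-(K : ℝ))..K, ee (k * g) = if k = 0 then (2 * K : ℂ) else 0 := by
  by_cases hk : k = 0
  · subst hk
    simp [ee_zero]
    ring
  · rw [if_neg hk]
    have hc : (2 * Real.pi * k * Complex.I : ℂ) ≠ 0 := by
      have : (k : ℂ) ≠ 0 := by exact_mod_cast hk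
      have hp : (Real.pi : ℂ) ≠ 0 := by exact_mod_cast Real.pi_ne_zero
      simp [this, hp]
    have h1 : (fun g : ℝ => ee (k * g)) = fun g : ℝ => Complex.exp ((2 * Real.pi * k * Complex.I) * g) := by
      funext g
      unfold ee
      congr 1
      push_cast
      ring
    rw [h1, integral_exp_mul_complex hc]
    have h2 : Complex.exp ((2 * Real.pi * k * Complex.I) * ((K : ℝ) : ℂ)) = 1 := by
      rw [Complex.exp_eq_one_iff]
      exact ⟨k * K, by push_cast; ring⟩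
    have h3 : Complex.exp ((2 * Real.pi * k * Complex.I) * ((-(K : ℝ) : ℝ) : ℂ)) = 1 := by
      rw [Complex.exp_eq_one_iff]
      exact ⟨k * (-K), by push_cast; ring⟩
    rw [h2, h3]
    simp

lemma ee_continuous : Continuous ee := by
  unfold ee
  fun_prop

lemma tp_continuous (Λ : Finset ℤ) (c : ℤ → ℂ) : Continuous (tp Λ c) := by
  unfold tp
  refine continuous_finsetSum _ fun n _ => ?_
  exact continuous_const.mul (ee_continuous.comp (continuous_const.mul continuous_id))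

lemma int_tpa (Λ : Finset ℤ) (c : ℤ → ℂ) (K : ℕ) :
    ∫ g in (-(K : ℝ))..K, ‖tpa Λ c g‖ ^ 2 = 2 * K * ∑ n ∈ Λ, ‖c n‖ ^ 2 := by
  have e0 : ((∫ g in (-(K : ℝ))..K, ‖tpa Λ c g‖ ^ 2 : ℝ) : ℂ) = ∫ g in (-(K : ℝ))..K, ((‖tpa Λ c g‖ ^ 2 : ℝ) : ℂ) :=
    (intervalIntegral.integral_ofReal).symm
  have e1 : ∀ g : ℝ, ((‖tpa Λ c g‖ ^ 2 : ℝ) : ℂ) = ∑ n ∈ Λ, ∑ n' ∈ Λ, ((‖c n‖ : ℂ) * ‖c n'‖) * ee (((n - n' : ℤ) : ℝ) * g) := by
    intro g
    have h3 : ((‖tpa Λ c g‖ ^ 2 : ℝ) : ℂ) = tpa Λ c g * (starRingEnd ℂ) (tpa Λ c g) := by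
      rw [Complex.mul_conj, Complex.normSq_eq_norm_sq]
    rw [h3]
    unfold tpa tp
    simp only [map_sum, map_mul, ee_conj, Complex.conj_ofReal]
    rw [Finset.sum_mul_sum]
    apply Finset.sum_congr rfl; intro n _
    apply Finset.sum_congr rfl; intro n' _
    rw [show (((n - n' : ℤ) : ℝ) * g) = n * g + -(n' * g) by push_cast; ring, ee_add]
    ring
  have hc2 : ∀ n n' : ℤ, Continuous (fun g : ℝ => ((‖c n‖ : ℂ) * ‖c n'‖) * ee (((n - n' : ℤ) : ℝ) * g)) := by
    intro n n'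
    refine continuous_const.mul ?_
    exact ee_continuous.comp (continuous_const.mul continuous_id)
  have inner : ∀ n ∈ Λ, ∀ n' ∈ Λ, ∫ g in (-(K : ℝ))..K, ((‖c n‖ : ℂ) * ‖c n'‖) * ee (((n - n' : ℤ) : ℝ) * g) =
      if n' = n then (2 * K * (‖c n‖ : ℂ) ^ 2) else 0 := by
    intro n _ n' _
    rw [intervalIntegral.integral_const_mul, int_ee]
    by_cases h : n' = n
    · subst h
      rw [if_pos (sub_self _), if_pos rfl]
      ring
    · rw [if_neg h, if_neg (by omega), mul_zero]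
  have e2 : ((∫ g in (-(K : ℝ))..K, ‖tpa Λ c g‖ ^ 2 : ℝ) : ℂ) = ((2 * K * ∑ n ∈ Λ, ‖c n‖ ^ 2 : ℝ) : ℂ) := by
    rw [e0, intervalIntegral.integral_congr (fun g _ => e1 g)]
    rw [intervalIntegral.integral_finsetSum]
    · rw [Finset.mul_sum, Complex.ofReal_sum]
      apply Finset.sum_congr rfl; intro n hn
      rw [intervalIntegral.integral_finsetSum]
      · rw [Finset.sum_congr rfl (inner n hn), Finset.sum_ite_eq' Λ n, if_pos hn]
        push_cast
        ring
      · intro n' _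
        exact Continuous.intervalIntegrable (hc2 n n') _ _
    · intro n _
      refine Continuous.intervalIntegrable ?_ _ _
      exact continuous_finsetSum _ fun n' _ => hc2 n n'
  exact Complex.ofReal_injective e2

lemma ae_tendsto (Λ : ℕ → Finset ℤ) (c : ℕ → ℤ → ℂ) (hs : Summable (fun m => ∑ n ∈ Λ m, ‖c m n‖ ^ 2)) :
    ∀ᵐ g ∂(volume : Measure ℝ), Tendsto (fun m => ‖tpa (Λ m) (c m) g‖) atTop (𝓝 0) := by
  have hK : ∀ K : ℕ, ∀ᵐ g ∂(volume.restrict (Set.Ioc (-(K : ℝ)) K)), Tendsto (fun m => ‖tpa (Λ m) (c m) g‖) atTop (𝓝 0) := by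
    intro K
    have hle : -(K : ℝ) ≤ K := by have : (0 : ℝ) ≤ K := Nat.cast_nonneg K; linarith
    have hcont : ∀ m, Continuous (fun g => ‖tpa (Λ m) (c m) g‖ ^ 2) := fun m =>
      ((tp_continuous _ _).norm).pow 2
    have h1 : ∀ m, ∫⁻ g in Set.Ioc (-(K : ℝ)) K, ENNReal.ofReal (‖tpa (Λ m) (c m) g‖ ^ 2) =
        ENNReal.ofReal (2 * K * ∑ n ∈ Λ m, ‖c m n‖ ^ 2) := by
      intro m
      rw [← int_tpa, intervalIntegral.integral_of_le hle]
      rw [ofReal_integral_eq_lintegral_ofReal]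
      · exact ((hcont m).integrableOn_Icc (a := -(K : ℝ)) (b := K)).mono_set Set.Ioc_subset_Icc_self
      · exact Eventually.of_forall fun g => by positivity
    have h2 : ∫⁻ g in Set.Ioc (-(K : ℝ)) K, ∑' m, ENNReal.ofReal (‖tpa (Λ m) (c m) g‖ ^ 2) ≠ ⊤ := by
      rw [lintegral_tsum (f := fun m g => ENNReal.ofReal (‖tpa (Λ m) (c m) g‖ ^ 2))
        (fun m => (ENNReal.continuous_ofReal.comp (hcont m)).measurable.aemeasurable)]
      rw [tsum_congr h1]
      rw [← ENNReal.ofReal_tsum_of_nonneg (fun m => by positivity) (hs.mul_left _)]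
      exact ENNReal.ofReal_ne_top
    have hmeas : Measurable (fun g => ∑' m, ENNReal.ofReal (‖tpa (Λ m) (c m) g‖ ^ 2)) :=
      Measurable.ennreal_tsum fun m => (ENNReal.continuous_ofReal.comp (hcont m)).measurable
    have h3 := ae_lt_top' hmeas.aemeasurable h2
    filter_upwards [h3] with g hg
    have h4 : Summable (fun m => ‖tpa (Λ m) (c m) g‖ ^ 2) := by
      have := ENNReal.summable_toReal hg.ne
      refine this.congr fun m => ?_
      exact ENNReal.toReal_ofReal (by positivity)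
    have h5 := h4.tendsto_atTop_zero
    have h6 := (Real.continuous_sqrt.tendsto 0).comp h5
    simp only [Real.sqrt_zero, Function.comp_def, Real.sqrt_sq (norm_nonneg _)] at h6
    exact h6
  have hall := ae_all_iff.mpr fun K => (ae_restrict_iff' measurableSet_Ioc).mp (hK K)
  filter_upwards [hall] with g hg
  obtain ⟨K, hK'⟩ := exists_nat_gt |g|
  exact hg K ⟨by linarith [neg_abs_le g], by linarith [le_abs_self g]⟩


section SetOpen
open Set

lemma null_cover (H : Set ℝ) (hH : volume H = 0) :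
    ∃ x ρ : ℕ → ℝ, (∀ n, 0 < ρ n) ∧ Summable ρ ∧ ∀ h ∈ H, {n | |h - x n| ≤ ρ n}.Infinite := by
  classical
  have key : ∀ k : ℕ, ∃ t : ℕ → Set ℝ, H ⊆ ⋃ n, t n ∧
      ∑' n, (⨆ _ : (t n).Nonempty, Metric.ediam (t n) ^ (1 : ℝ)) < ENNReal.ofReal ((1 / 2 : ℝ) ^ k) := by
    intro k
    have h0 : μH[(1 : ℝ)] H = 0 := by rw [hausdorffMeasure_real]; exact hH
    rw [Measure.hausdorffMeasure_apply] at h0
    have h1 := le_of_eq h0
    have h2 : (⨅ (t : ℕ → Set ℝ) (_ : H ⊆ ⋃ n, t n) (_ : ∀ n, Metric.ediam (t n) ≤ 1),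
          ∑' n, ⨆ _ : (t n).Nonempty, Metric.ediam (t n) ^ (1 : ℝ)) ≤ 0 := by
      refine le_trans ?_ h1
      exact le_iSup₂ (f := fun (r : ENNReal) (_ : 0 < r) => ⨅ (t : ℕ → Set ℝ) (_ : H ⊆ ⋃ n, t n) (_ : ∀ n, Metric.ediam (t n) ≤ r),
          ∑' n, ⨆ _ : (t n).Nonempty, Metric.ediam (t n) ^ (1 : ℝ)) 1 one_pos
    have h3 := lt_of_le_of_lt h2 (ENNReal.ofReal_pos.mpr (by positivity : (0 : ℝ) < (1 / 2) ^ k))
    simp only [iInf_lt_iff] at h3
    obtain ⟨t, ht, _, hs⟩ := h3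
    exact ⟨t, ht, hs⟩
  choose t ht hs using key
  let E : ℕ × ℕ → ENNReal := fun p => ⨆ _ : (t p.1 p.2).Nonempty, Metric.ediam (t p.1 p.2) ^ (1 : ℝ)
  have hE : ∑' p, E p ≠ ⊤ := by
    rw [ENNReal.tsum_prod']
    have : ∑' k, ∑' n, E (k, n) ≤ ∑' k : ℕ, ENNReal.ofReal ((1 / 2 : ℝ) ^ k) :=
      ENNReal.tsum_le_tsum fun k => (hs k).le
    refine ne_top_of_le_ne_top ?_ this
    rw [← ENNReal.ofReal_tsum_of_nonneg (fun n => by positivity) summable_geometric_two]
    exact ENNReal.ofReal_ne_top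
  obtain ⟨η, hη0, c, hη, -⟩ := NNReal.exists_pos_sum_of_countable (ε := 1) one_ne_zero (ℕ × ℕ)
  have hηs : Summable (fun p => (η p : ℝ)) := by exact_mod_cast hη.summable
  have hEs : Summable (fun p => (E p).toReal) := ENNReal.summable_toReal hE
  let x' : ℕ × ℕ → ℝ := fun p => if h : (t p.1 p.2).Nonempty then h.some else 0
  let ρ' : ℕ × ℕ → ℝ := fun p => (E p).toReal + η p
  let eqv := Nat.pairEquiv
  refine ⟨fun n => x' (eqv.symm n), fun n => ρ' (eqv.symm n), ?_, ?_, ?_⟩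
  · intro n
    have := hη0 (eqv.symm n)
    have h2 : 0 ≤ (E (eqv.symm n)).toReal := ENNReal.toReal_nonneg
    have h3 : (0 : ℝ) < η (eqv.symm n) := by exact_mod_cast this
    simp only [ρ']
    linarith
  · exact (eqv.symm.summable_iff (f := ρ')).mpr (hEs.add hηs)
  · intro h hh
    have hk : ∀ k, ∃ n, h ∈ t k n := fun k => by
      have := ht k hh
      simpa using this
    choose n hn using hk
    have hinj : Function.Injective (fun k => eqv (k, n k)) := by
      intro a b hab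
      have := eqv.injective hab
      exact (Prod.mk.inj this).1
    refine (Set.infinite_range_of_injective hinj).mono ?_
    rintro _ ⟨k, rfl⟩
    show |h - x' (eqv.symm (eqv (k, n k)))| ≤ ρ' (eqv.symm (eqv (k, n k)))
    rw [Equiv.symm_apply_apply]
    have hne : (t k (n k)).Nonempty := ⟨h, hn k⟩
    have hx : x' (k, n k) = hne.some := by simp only [x', hne, dif_pos]
    have hEk : E (k, n k) = Metric.ediam (t k (n k)) := by
      simp only [E, hne, iSup_pos, ENNReal.rpow_one]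
    have hfin : E (k, n k) ≠ ⊤ := ENNReal.ne_top_of_tsum_ne_top hE _
    have hd : edist h hne.some ≤ Metric.ediam (t k (n k)) := Metric.edist_le_ediam_of_mem (hn k) hne.some_mem
    rw [hx, ← Real.dist_eq]
    have : dist h hne.some ≤ (E (k, n k)).toReal := by
      rw [hEk]
      rw [← hEk] at hd ⊢
      rw [dist_edist]
      exact ENNReal.toReal_mono hfin hd
    have h4 : (0 : ℝ) ≤ η (k, n k) := (η (k, n k)).2
    simp only [ρ']
    linarith

lemma slow (ρ : ℕ → ℝ) (hρ : ∀ n, 0 < ρ n) (hs : Summable ρ) :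
    ∃ d : ℕ → ℕ, Tendsto d atTop atTop ∧ Summable (fun n => (4 : ℝ) ^ d n * ρ n) := by
  let R : ℕ → ℝ := fun n => ∑' m, ρ (m + n)
  have hsn : ∀ n, Summable (fun m => ρ (m + n)) := fun n => (summable_nat_add_iff n).mpr hs
  have hRpos : ∀ n, 0 < R n := fun n => (hsn n).tsum_pos (fun m => (hρ _).le) 0 (hρ _)
  have hRstep : ∀ n, R n = ρ n + R (n + 1) := by
    intro n
    have := (hsn n).tsum_eq_zero_add
    simp only [R]
    rw [this, zero_add]
    congr 1
    apply tsum_congr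
    intro m
    congr 1
    ring
  have hR0 : Tendsto R atTop (𝓝 0) := tendsto_sum_nat_add ρ
  have hw : ∀ n, ρ n / √(R n) ≤ 2 * (√(R n) - √(R (n + 1))) := by
    intro n
    have h1 : 0 < √(R n) := Real.sqrt_pos.mpr (hRpos n)
    have h2 : 0 < √(R (n + 1)) := Real.sqrt_pos.mpr (hRpos _)
    have h3 : √(R (n + 1)) ≤ √(R n) := Real.sqrt_le_sqrt (by rw [hRstep n]; linarith [hρ n])
    rw [div_le_iff₀ h1]
    have e1 : √(R n) * √(R n) = R n := Real.mul_self_sqrt (hRpos n).le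
    have e2 : √(R (n + 1)) * √(R (n + 1)) = R (n + 1) := Real.mul_self_sqrt (hRpos _).le
    have e3 := hRstep n
    nlinarith
  have hsw : Summable (fun n => ρ n / √(R n)) := by
    refine summable_of_sum_range_le (c := 2 * √(R 0)) (fun n => by have := hρ n; positivity) ?_
    intro n
    have : ∑ i ∈ Finset.range n, ρ i / √(R i) ≤ ∑ i ∈ Finset.range n, 2 * (√(R i) - √(R (i + 1))) :=
      Finset.sum_le_sum fun i _ => hw i
    refine this.trans ?_
    rw [← Finset.mul_sum, Finset.sum_range_sub']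
    have := Real.sqrt_nonneg (R n)
    linarith
  refine ⟨fun n => Nat.log 4 ⌊1 / √(R n)⌋₊, ?_, ?_⟩
  · have t1 : Tendsto (fun n => 1 / √(R n)) atTop atTop := by
      have t2 : Tendsto (fun n => √(R n)) atTop (𝓝 0) := by
        have := (Real.continuous_sqrt.tendsto 0).comp hR0
        simpa [Function.comp_def] using this
      have t3 : Tendsto (fun n => √(R n)) atTop (𝓝[>] 0) :=
        tendsto_nhdsWithin_iff.mpr ⟨t2, Eventually.of_forall fun n => Real.sqrt_pos.mpr (hRpos n)⟩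
      simp only [one_div]
      exact tendsto_inv_nhdsGT_zero.comp t3
    have t4 : Tendsto (fun n => ⌊1 / √(R n)⌋₊) atTop atTop := tendsto_nat_floor_atTop.comp t1
    rw [tendsto_atTop]
    intro K
    filter_upwards [t4.eventually_ge_atTop (4 ^ K)] with n hn
    exact Nat.le_log_of_pow_le (by norm_num) hn
  · refine Summable.of_nonneg_of_le (fun n => by have := hρ n; positivity) (fun n => ?_) (hs.add hsw)
    have h1 : (4 : ℝ) ^ Nat.log 4 ⌊1 / √(R n)⌋₊ ≤ 1 + 1 / √(R n) := by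
      by_cases h0 : ⌊1 / √(R n)⌋₊ = 0
      · rw [h0]; simp
      · have h2 : 4 ^ Nat.log 4 ⌊1 / √(R n)⌋₊ ≤ ⌊1 / √(R n)⌋₊ := Nat.pow_log_le_self 4 h0
        have h3 : ((⌊1 / √(R n)⌋₊ : ℕ) : ℝ) ≤ 1 / √(R n) := Nat.floor_le (by positivity)
        have h4 : ((4 : ℝ) ^ Nat.log 4 ⌊1 / √(R n)⌋₊) ≤ ((⌊1 / √(R n)⌋₊ : ℕ) : ℝ) := by exact_mod_cast h2
        linarith
    calc (4 : ℝ) ^ Nat.log 4 ⌊1 / √(R n)⌋₊ * ρ n ≤ (1 + 1 / √(R n)) * ρ n := by
          have := (hρ n).le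
          gcongr
      _ = ρ n + ρ n / √(R n) := by ring

lemma choose_b (d : ℕ → ℕ) (hd : Tendsto d atTop atTop) (ρ : ℕ → ℝ) (hρ : ∀ n, 0 < ρ n) :
    ∃ b : ℕ → ℝ, (∀ i, 0 < b i) ∧ (∀ i, b (i + 1) ≤ b i / 16) ∧ ∀ n, b (d n) ≤ ρ n := by
  have hc : ∀ i, ∃ c > 0, ∀ n, d n = i → c ≤ ρ n := by
    intro i
    have hfin : {n | d n = i}.Finite := by
      have h1 : ∀ᶠ n in atTop, i < d n := hd.eventually_gt_atTop i
      obtain ⟨K, hK⟩ := eventually_atTop.mp h1
      refine (Set.finite_Iio K).subset ?_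
      intro n hn
      by_contra hlt
      have := hK n (not_lt.mp hlt)
      have h2 : d n = i := hn
      omega
    rcases hfin.toFinset.eq_empty_or_nonempty with he | hne
    · refine ⟨1, one_pos, fun n hn => ?_⟩
      have : n ∈ hfin.toFinset := by simpa using hn
      rw [he] at this
      simp at this
    · obtain ⟨n0, -, hmin⟩ := Finset.exists_min_image hfin.toFinset ρ hne
      exact ⟨ρ n0, hρ _, fun n hn => hmin n (by simpa using hn)⟩
  choose c hc0 hc1 using hc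
  let b : ℕ → ℝ := fun i => Nat.rec (c 0) (fun j bj => min (bj / 16) (c (j + 1))) i
  have hb0 : b 0 = c 0 := rfl
  have hb1 : ∀ j, b (j + 1) = min (b j / 16) (c (j + 1)) := fun j => rfl
  have hpos : ∀ i, 0 < b i := by
    intro i
    induction i with
    | zero => rw [hb0]; exact hc0 0
    | succ j ih => rw [hb1]; exact lt_min (by positivity) (hc0 _)
  have hbc : ∀ i, b i ≤ c i := by
    intro i
    cases i with
    | zero => exact le_of_eq hb0
    | succ j => rw [hb1]; exact min_le_right _ _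
  exact ⟨b, hpos, fun i => by rw [hb1]; exact min_le_left _ _, fun n => (hbc _).trans (hc1 _ n rfl)⟩


lemma thin (H : Set ℝ) (x ρ : ℕ → ℝ) (hρ : ∀ n, 0 < ρ n)
    (hcov : ∀ h ∈ H, {n | |h - x n| ≤ ρ n}.Infinite) (d : ℕ → ℕ)
    (hsum : Summable (fun n => (4 : ℝ) ^ d n * ρ n)) (b : ℕ → ℝ) (hb0 : ∀ i, 0 < b i)
    (hb : ∀ n, b (d n) ≤ ρ n) (W : Set ℝ) (a : ℝ) (ha : 0 < a) (hW : ∀ w ∈ W, a ≤ |w|)
    (hU : ∀ k, ∃ U : Finset ℝ, U.card ≤ 4 ^ k ∧ ∀ w ∈ W, ∃ u ∈ U, |w - u| ≤ 4 * b k) :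
    ∀ᵐ r ∂(volume : Measure ℝ), r ∈ Icc (1 : ℝ) 2 → ∀ w ∈ W, r * w ∉ H := by
  classical
  let s : ℕ → Set ℝ := fun n => {r | r ∈ Icc (1 : ℝ) 2 ∧ ∃ w ∈ W, |r * w - x n| ≤ ρ n}
  have hvol : ∀ n, volume (s n) ≤ ENNReal.ofReal (36 / a * (4 ^ d n * ρ n)) := by
    intro n
    have hρn := hρ n
    by_cases hcase : 4 * b (d n) ≤ a / 2
    · obtain ⟨U, hUc, hUw⟩ := hU (d n)
      let U' := U.filter (fun u => a / 2 ≤ |u|)
      have hsub : s n ⊆ ⋃ u ∈ U', Metric.closedBall (x n / u) (18 * ρ n / a) := by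
        rintro r ⟨⟨hr1, hr2⟩, w, hw, hrw⟩
        obtain ⟨u, hu, hwu⟩ := hUw w hw
        have hau : a / 2 ≤ |u| := by
          have h1 := hW w hw
          have h2 : |w| ≤ |w - u| + |u| := by
            calc |w| = |(w - u) + u| := by ring_nf
              _ ≤ _ := abs_add_le _ _
          linarith
        have hu0 : u ≠ 0 := by
          intro h; rw [h, abs_zero] at hau; linarith
        simp only [mem_iUnion]
        refine ⟨u, Finset.mem_filter.mpr ⟨hu, hau⟩, ?_⟩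
        rw [Metric.mem_closedBall, Real.dist_eq]
        have h3 : |r * u - x n| ≤ 9 * ρ n := by
          have h4 : |r * u - x n| ≤ |r * w - x n| + |r| * |w - u| := by
            rw [← abs_mul]
            calc |r * u - x n| = |(r * w - x n) - r * (w - u)| := by ring_nf
              _ ≤ _ := abs_sub _ _
          have h5 : |r| * |w - u| ≤ 2 * (4 * ρ n) := by
            have h6 : |r| ≤ 2 := by rw [abs_of_nonneg (by linarith)]; exact hr2
            have h7 : |w - u| ≤ 4 * ρ n := hwu.trans (by linarith [hb n])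
            exact mul_le_mul h6 h7 (abs_nonneg _) (by norm_num)
          linarith
        have h8 : r - x n / u = (r * u - x n) / u := by field_simp
        rw [h8, abs_div, div_le_div_iff₀ (abs_pos.mpr hu0) ha]
        calc |r * u - x n| * a ≤ 9 * ρ n * a := by gcongr
          _ = 18 * ρ n * (a / 2) := by ring
          _ ≤ 18 * ρ n * |u| := by gcongr
      calc volume (s n) ≤ volume (⋃ u ∈ U', Metric.closedBall (x n / u) (18 * ρ n / a)) := measure_mono hsub
        _ ≤ ∑ u ∈ U', volume (Metric.closedBall (x n / u) (18 * ρ n / a)) := measure_biUnion_finset_le _ _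
        _ = ∑ u ∈ U', ENNReal.ofReal (2 * (18 * ρ n / a)) := by simp only [Real.volume_closedBall]
        _ = U'.card * ENNReal.ofReal (2 * (18 * ρ n / a)) := by rw [Finset.sum_const, nsmul_eq_mul]
        _ ≤ ENNReal.ofReal (4 ^ d n) * ENNReal.ofReal (2 * (18 * ρ n / a)) := by
            gcongr
            have h9 : U'.card ≤ 4 ^ d n := (Finset.card_filter_le _ _).trans hUc
            rw [← ENNReal.ofReal_natCast]
            apply ENNReal.ofReal_le_ofReal
            exact_mod_cast h9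
        _ = ENNReal.ofReal (36 / a * (4 ^ d n * ρ n)) := by
            rw [← ENNReal.ofReal_mul (by positivity)]
            congr 1
            ring
    · have h1 : volume (s n) ≤ volume (Icc (1 : ℝ) 2) := measure_mono fun r hr => hr.1
      rw [Real.volume_Icc] at h1
      refine h1.trans (ENNReal.ofReal_le_ofReal ?_)
      push Not at hcase
      have h2 : a / 2 < 4 * ρ n := hcase.trans_le (by linarith [hb n])
      have h3 : (1 : ℝ) ≤ 4 ^ d n := one_le_pow₀ (by norm_num)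
      have h4 : ρ n ≤ 4 ^ d n * ρ n := le_mul_of_one_le_left hρn.le h3
      have h5 : 1 ≤ 36 / a * ρ n := by
        rw [div_mul_eq_mul_div, le_div_iff₀ ha]; linarith
      have h6 : 36 / a * ρ n ≤ 36 / a * (4 ^ d n * ρ n) := by gcongr
      linarith
  have htsum : ∑' n, volume (s n) ≠ ⊤ := by
    refine ne_top_of_le_ne_top ?_ (ENNReal.tsum_le_tsum hvol)
    rw [← ENNReal.ofReal_tsum_of_nonneg (fun n => by have := hρ n; positivity) (hsum.mul_left _)]
    exact ENNReal.ofReal_ne_top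
  have hbc := ae_finite_setOfPred_mem htsum
  filter_upwards [hbc] with r hr hrI w hw hmem
  refine hcov _ hmem (hr.subset ?_)
  intro n hn
  exact ⟨hrI, w, hw, hn⟩

section V
variable (b : ℕ → ℝ)

/-- Subset sums. -/
noncomputable def VV (e : ℕ → Bool) : ℝ := ∑' i, (if e i then b i else 0)

variable {b} (hb0 : ∀ i, 0 < b i) (hb1 : ∀ i, b (i + 1) ≤ b i / 16)
include hb0 hb1

lemma b_geom (k i : ℕ) : b (i + k) ≤ b k * (1 / 16) ^ i := by
  induction i with
  | zero => simp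
  | succ i ih =>
    have h := hb1 (i + k)
    have : i + 1 + k = i + k + 1 := by ring
    rw [this, pow_succ]
    nlinarith

lemma summ_tail (e : ℕ → Bool) (k : ℕ) : Summable (fun i => (if e (i + k) then b (i + k) else 0)) := by
  refine Summable.of_nonneg_of_le (f := fun i => b k * (1 / 16 : ℝ) ^ i) (fun i => ?_) (fun i => ?_) ?_
  · split_ifs; exacts [(hb0 _).le, le_rfl]
  · have h := b_geom hb0 hb1 k i
    have h2 := (hb0 (i + k)).le
    split_ifs
    · exact h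
    · exact h2.trans h
  · exact (summable_geometric_of_lt_one (by norm_num) (by norm_num)).mul_left _

lemma tail_bound (e : ℕ → Bool) (k : ℕ) :
    0 ≤ ∑' i, (if e (i + k) then b (i + k) else 0) ∧
    ∑' i, (if e (i + k) then b (i + k) else 0) ≤ 2 * b k := by
  constructor
  · exact tsum_nonneg fun i => by split_ifs; exacts [(hb0 _).le, le_rfl]
  · have h1 : ∑' i, (if e (i + k) then b (i + k) else 0) ≤ ∑' i : ℕ, b k * (1 / 16 : ℝ) ^ i := by
      refine Summable.tsum_le_tsum (fun i => ?_) (summ_tail hb0 hb1 e k)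
        ((summable_geometric_of_lt_one (by norm_num) (by norm_num)).mul_left _)
      have h := b_geom hb0 hb1 k i
      have h2 := (hb0 (i + k)).le
      split_ifs
      · exact h
      · exact h2.trans h
    refine h1.trans ?_
    rw [tsum_mul_left, tsum_geometric_of_lt_one (by norm_num) (by norm_num)]
    have := hb0 k
    nlinarith

lemma VV_split (e : ℕ → Bool) (k : ℕ) :
    VV b e = ∑ i ∈ Finset.range k, (if e i then b i else 0) + ∑' i, (if e (i + k) then b (i + k) else 0) := by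
  have hs : Summable (fun i => (if e i then b i else 0)) := by
    simpa using summ_tail hb0 hb1 e 0
  exact (hs.sum_add_tsum_nat_add k).symm

lemma VV_nonneg (e : ℕ → Bool) : 0 ≤ VV b e := by
  have := (tail_bound hb0 hb1 e 0).1
  simpa [VV] using this

lemma VV_approx (e : ℕ → Bool) (k : ℕ) :
    ∃ S ∈ (Finset.range k).powerset, |VV b e - ∑ i ∈ S, b i| ≤ 2 * b k := by
  refine ⟨(Finset.range k).filter (fun i => e i = true), Finset.mem_powerset.mpr (Finset.filter_subset _ _), ?_⟩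
  rw [VV_split hb0 hb1 e k, Finset.sum_filter, add_sub_cancel_left]
  have h := tail_bound hb0 hb1 e k
  rw [abs_of_nonneg h.1]
  exact h.2

lemma VV_diff (e e' : ℕ → Bool) (k : ℕ) (h : ∀ i < k, e i = e' i) (hk : e k ≠ e' k) :
    b k / 2 ≤ |VV b e - VV b e'| := by
  have h1 := VV_split hb0 hb1 e (k + 1)
  have h2 := VV_split hb0 hb1 e' (k + 1)
  rw [Finset.sum_range_succ] at h1 h2
  have h3 : ∑ i ∈ Finset.range k, (if e i then b i else 0) = ∑ i ∈ Finset.range k, (if e' i then b i else 0) := by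
    apply Finset.sum_congr rfl
    intro i hi
    rw [h i (Finset.mem_range.mp hi)]
  have t1 := tail_bound hb0 hb1 e (k + 1)
  have t2 := tail_bound hb0 hb1 e' (k + 1)
  have h4 := hb1 k
  have h5 := hb0 k
  rw [h1, h2, h3]
  cases hek : e k <;> cases hek' : e' k
  · exact absurd (hek.trans hek'.symm) hk
  · simp only [Bool.false_eq_true, if_false, if_true]
    rw [abs_sub_comm]
    refine le_trans ?_ (le_abs_self _)
    linarith [t1.1, t1.2, t2.1, t2.2]
  · simp only [Bool.false_eq_true, if_false, if_true]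
    refine le_trans ?_ (le_abs_self _)
    linarith [t1.1, t1.2, t2.1, t2.2]
  · exact absurd (hek.trans hek'.symm) hk

end V

/-- For null sets `N`, `G` there are continuum many points outside `N`, with all differences
outside `G`. -/
theorem perfect (N G : Set ℝ) (hN : volume N = 0) (hG : volume G = 0) :
    ∃ c : (ℕ → Bool) → ℝ, Function.Injective c ∧ (∀ e, c e ∉ N) ∧
      ∀ e e', e ≠ e' → c e - c e' ∉ G := by
  classical
  obtain ⟨x, ρ, hρ, hρs, hcov⟩ := null_cover (N ∪ G) (measure_union_null hN hG)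
  obtain ⟨d, hd, hds⟩ := slow ρ hρ hρs
  obtain ⟨b, hb0, hb1, hb⟩ := choose_b d hd ρ hρ
  have hA : ∀ᵐ r ∂(volume : Measure ℝ), r ∈ Icc (1 : ℝ) 2 → ∀ w ∈ range (fun e => 1 + VV b e), r * w ∉ N ∪ G := by
    refine thin _ x ρ hρ hcov d hds b hb0 hb _ 1 one_pos ?_ ?_
    · rintro _ ⟨e, rfl⟩
      have := VV_nonneg hb0 hb1 e
      refine le_trans ?_ (le_abs_self _)
      simp only; linarith
    · intro k
      refine ⟨(Finset.range k).powerset.image (fun S => 1 + ∑ i ∈ S, b i), ?_, ?_⟩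
      · refine Finset.card_image_le.trans ?_
        rw [Finset.card_powerset, Finset.card_range]
        exact Nat.pow_le_pow_left (by norm_num) k
      · rintro _ ⟨e, rfl⟩
        obtain ⟨S, hS, hSb⟩ := VV_approx hb0 hb1 e k
        refine ⟨1 + ∑ i ∈ S, b i, Finset.mem_image.mpr ⟨S, hS, rfl⟩, ?_⟩
        have : (fun e => 1 + VV b e) e - (1 + ∑ i ∈ S, b i) = VV b e - ∑ i ∈ S, b i := by
          simp only; ring
        rw [this]
        linarith [hb0 k]
  have hB : ∀ k : ℕ, ∀ᵐ r ∂(volume : Measure ℝ), r ∈ Icc (1 : ℝ) 2 →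
      ∀ w ∈ {w | ∃ e e' : ℕ → Bool, (∀ i < k, e i = e' i) ∧ e k ≠ e' k ∧ w = VV b e - VV b e'}, r * w ∉ N ∪ G := by
    intro k
    refine thin _ x ρ hρ hcov d hds b hb0 hb _ (b k / 2) (by have := hb0 k; positivity) ?_ ?_
    · rintro w ⟨e, e', h1, h2, rfl⟩
      exact VV_diff hb0 hb1 e e' k h1 h2
    · intro j
      refine ⟨((Finset.range j).powerset ×ˢ (Finset.range j).powerset).image
        (fun p => ∑ i ∈ p.1, b i - ∑ i ∈ p.2, b i), ?_, ?_⟩
      · refine Finset.card_image_le.trans ?_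
        rw [Finset.card_product, Finset.card_powerset, Finset.card_range, ← mul_pow]
        norm_num
      · rintro w ⟨e, e', h1, h2, rfl⟩
        obtain ⟨S, hS, hSb⟩ := VV_approx hb0 hb1 e j
        obtain ⟨S', hS', hSb'⟩ := VV_approx hb0 hb1 e' j
        refine ⟨∑ i ∈ S, b i - ∑ i ∈ S', b i, Finset.mem_image.mpr ⟨(S, S'), Finset.mem_product.mpr ⟨hS, hS'⟩, rfl⟩, ?_⟩
        have : VV b e - VV b e' - (∑ i ∈ S, b i - ∑ i ∈ S', b i) =
          (VV b e - ∑ i ∈ S, b i) - (VV b e' - ∑ i ∈ S', b i) := by ring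
        rw [this]
        refine (abs_sub _ _).trans ?_
        linarith
  have hall : ∀ᵐ r ∂(volume : Measure ℝ), (r ∈ Icc (1 : ℝ) 2 → ∀ w ∈ range (fun e => 1 + VV b e), r * w ∉ N ∪ G) ∧
      ∀ k : ℕ, r ∈ Icc (1 : ℝ) 2 →
      ∀ w ∈ {w | ∃ e e' : ℕ → Bool, (∀ i < k, e i = e' i) ∧ e k ≠ e' k ∧ w = VV b e - VV b e'}, r * w ∉ N ∪ G :=
    hA.and (ae_all_iff.mpr hB)
  have hpos : volume (Icc (1 : ℝ) 2) ≠ 0 := by rw [Real.volume_Icc]; norm_num
  obtain ⟨r, hrI, hr1, hr2⟩ : ∃ r ∈ Icc (1 : ℝ) 2, (r ∈ Icc (1 : ℝ) 2 → ∀ w ∈ range (fun e => 1 + VV b e), r * w ∉ N ∪ G) ∧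
      ∀ k : ℕ, r ∈ Icc (1 : ℝ) 2 →
      ∀ w ∈ {w | ∃ e e' : ℕ → Bool, (∀ i < k, e i = e' i) ∧ e k ≠ e' k ∧ w = VV b e - VV b e'}, r * w ∉ N ∪ G := by
    by_contra hno
    push Not at hno
    apply hpos
    refine measure_mono_null ?_ hall
    intro r hr
    have := hno r hr
    intro hcon
    obtain ⟨k, _, w, hw, hwN⟩ := this hcon.1
    exact hcon.2 k hr w hw hwN
  have hfirst : ∀ e e' : ℕ → Bool, e ≠ e' → ∃ k, (∀ i < k, e i = e' i) ∧ e k ≠ e' k := by
    intro e e' hne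
    have hex : ∃ k, e k ≠ e' k := Function.ne_iff.mp hne
    refine ⟨Nat.find hex, fun i hi => ?_, Nat.find_spec hex⟩
    exact not_not.mp (Nat.find_min hex hi)
  have hrpos : 0 < r := by linarith [hrI.1]
  refine ⟨fun e => r * (1 + VV b e), ?_, ?_, ?_⟩
  · intro e e' hee
    by_contra hne
    obtain ⟨k, hk1, hk2⟩ := hfirst e e' hne
    have h1 := VV_diff hb0 hb1 e e' k hk1 hk2
    have h2 : 1 + VV b e = 1 + VV b e' := mul_left_cancel₀ hrpos.ne' hee
    have h3 : VV b e - VV b e' = 0 := by linarith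
    rw [h3, abs_zero] at h1
    linarith [hb0 k]
  · intro e he
    exact hr1 hrI _ ⟨e, rfl⟩ (Or.inl he)
  · intro e e' hne hmem
    obtain ⟨k, hk1, hk2⟩ := hfirst e e' hne
    have h1 := hr2 k hrI (VV b e - VV b e') ⟨e, e', hk1, hk2, rfl⟩
    apply h1
    right
    have : r * (VV b e - VV b e') = r * (1 + VV b e) - r * (1 + VV b e') := by ring
    rw [this]
    exact hmem


end SetOpen

section Good

variable (Λ : ℕ → Finset ℤ) (c : ℕ → ℤ → ℂ)

/-- All the distinct pairs of the finite set `F` have small correlation at stage `m`. -/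
def PF (m : ℕ) (δ : ℝ) (F : Finset ℝ) : Prop :=
  ∀ x ∈ F, ∀ y ∈ F, x ≠ y → ‖tpa (Λ m) (c m) (x - y)‖ ≤ δ

variable {Λ c}

lemma finite_bad (hc : ∀ m, ∑ n ∈ Λ m, ‖c m n‖ ≤ 1) (cc : (ℕ → Bool) → ℝ)
    (hinj : Function.Injective cc)
    (hcc : ∀ e e', e ≠ e' → Tendsto (fun m => ‖tpa (Λ m) (c m) (cc e - cc e')‖) atTop (𝓝 0))
    (F : Finset ℝ) (δ : ℝ) (hδ : 0 < δ) (hF : ∃ᶠ m in atTop, PF Λ c m δ F) :
    {e | ¬ ∃ᶠ m in atTop, PF Λ c m δ (insert (cc e) F)}.Finite := by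
  classical
  by_contra hinf
  have hinf' : {e | ¬ ∃ᶠ m in atTop, PF Λ c m δ (insert (cc e) F)}.Infinite := hinf
  obtain ⟨M, hM⟩ := exists_nat_ge (2 / δ ^ 2)
  obtain ⟨T, hT, hTc⟩ := hinf'.exists_subset_card_eq (F.card * M + 1)
  have ev1 : ∀ᶠ m in atTop, ∀ e ∈ T, ¬ PF Λ c m δ (insert (cc e) F) := by
    rw [Filter.eventually_all_finset]
    intro e he
    exact not_frequently.mp (hT he)
  have ev2 : ∀ᶠ m in atTop, ∀ e ∈ T, ∀ e' ∈ T, e ≠ e' → ‖tpa (Λ m) (c m) (cc e - cc e')‖ ≤ δ ^ 2 / 2 := by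
    rw [Filter.eventually_all_finset]
    intro e he
    rw [Filter.eventually_all_finset]
    intro e' he'
    by_cases hee : e = e'
    · exact Eventually.of_forall fun m h => absurd hee h
    · filter_upwards [(hcc e e' hee).eventually_lt_const (show (0 : ℝ) < δ ^ 2 / 2 by positivity)] with m hm _
      exact hm.le
  obtain ⟨m, hmF, hm1, hm2⟩ := (hF.and_eventually (ev1.and ev2)).exists
  have hex : ∀ e ∈ T, ∃ x ∈ F, δ < ‖tpa (Λ m) (c m) (cc e - x)‖ := by
    intro e he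
    have h1 := hm1 e he
    unfold PF at h1
    push Not at h1
    obtain ⟨x, hx, y, hy, hxy, hlt⟩ := h1
    rcases Finset.mem_insert.mp hx with rfl | hx'
    · rcases Finset.mem_insert.mp hy with h | hy'
      · exact absurd h.symm hxy
      · exact ⟨y, hy', hlt⟩
    · rcases Finset.mem_insert.mp hy with rfl | hy'
      · exact ⟨x, hx', by rw [tpa_symm]; exact hlt⟩
      · exact absurd (hmF x hx' y hy' hxy) (not_le.mpr hlt)
  choose! f hf1 hf2 using hex
  obtain ⟨x, hx, hcard⟩ := Finset.exists_lt_card_fiber_of_mul_lt_card_of_maps_to hf1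
    (show F.card * M < T.card by omega)
  let S := (T.filter (fun e => f e = x)).image cc
  have hScard : S.card = (T.filter (fun e => f e = x)).card := Finset.card_image_of_injective _ hinj
  have hb := bessel (Λ m) (fun n => (‖c m n‖ : ℂ)) (by simpa using hc m) S (-x) δ (δ ^ 2 / 2) hδ.le (by positivity)
    (by
      intro y hy
      obtain ⟨e, he, rfl⟩ := Finset.mem_image.mp hy
      obtain ⟨heT, hex⟩ := Finset.mem_filter.mp he
      have := hf2 e heT
      rw [hex] at this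
      rw [← sub_eq_add_neg]
      exact this.le)
    (by
      intro y hy y' hy' hne
      obtain ⟨e, he, rfl⟩ := Finset.mem_image.mp hy
      obtain ⟨e', he', rfl⟩ := Finset.mem_image.mp hy'
      have h3 := hm2 e (Finset.mem_filter.mp he).1 e' (Finset.mem_filter.mp he').1 (fun h => hne (by rw [h]))
      have h4 : tpa (Λ m) (fun n => (‖c m n‖ : ℂ)) (cc e - cc e') = tpa (Λ m) (c m) (cc e - cc e') := by
        unfold tpa
        simp
      rw [h4]; exact h3)
  have h5 : (M : ℝ) < S.card := by rw [hScard]; exact_mod_cast hcard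
  have h6 : 2 / δ ^ 2 < S.card := hM.trans_lt h5
  rw [div_lt_iff₀ (by positivity)] at h6
  nlinarith

end Good

section Main

variable (Λ : ℕ → ℕ → Finset ℤ) (c : ℕ → ℕ → ℤ → ℂ)

/-- the property preserved in the transfinite construction -/
def Ext (S N : Set ℝ) (z : ℝ) : Prop :=
  z ∉ N ∧ ∀ F : Finset ℝ, (F : Set ℝ) ⊆ S → ∀ j q : ℕ,
    (∃ᶠ m in atTop, PF (Λ j) (c j) m (1 / ((q : ℝ) + 1)) F) →
    ∃ᶠ m in atTop, PF (Λ j) (c j) m (1 / ((q : ℝ) + 1)) (open Classical in insert z F)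

variable {Λ c}

open Cardinal in
lemma extend (hc : ∀ j m, ∑ n ∈ Λ j m, ‖c j m n‖ ≤ 1)
    (hs : ∀ j, Summable (fun m => ∑ n ∈ Λ j m, ‖c j m n‖ ^ 2))
    (S : Set ℝ) (hS : #S < 𝔠) (N : Set ℝ) (hN : volume N = 0) : ∃ z, Ext Λ c S N z := by
  classical
  have hG : volume {g | ¬ ∀ j, Tendsto (fun m => ‖tpa (Λ j m) (c j m) g‖) atTop (𝓝 0)} = 0 :=
    ae_all_iff.mpr fun j => ae_tendsto (Λ j) (c j) (hs j)
  obtain ⟨cc, hinj, hccN, hccG⟩ := perfect N _ hN hG
  by_contra hno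
  push Not at hno
  unfold Ext at hno
  have h1 : ∀ e, ∃ F : Finset S, ∃ j q : ℕ,
      (∃ᶠ m in atTop, PF (Λ j) (c j) m (1 / ((q : ℝ) + 1)) (F.map (Function.Embedding.subtype _))) ∧
      ¬ ∃ᶠ m in atTop, PF (Λ j) (c j) m (1 / ((q : ℝ) + 1)) (insert (cc e) (F.map (Function.Embedding.subtype _))) := by
    intro e
    have h2 := hno (cc e)
    rw [not_and_or] at h2
    rcases h2 with h2 | h2
    · exact absurd (hccN e) h2
    · push Not at h2
      obtain ⟨F, hF, j, q, h3, h4⟩ := h2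
      have hmap : (F.subtype (· ∈ S)).map (Function.Embedding.subtype _) = F :=
        Finset.subtype_map_of_mem fun x hx => hF hx
      refine ⟨F.subtype (· ∈ S), j, q, ?_, ?_⟩
      · rw [hmap]; exact h3
      · rw [hmap]
        simpa using h4
  choose F j q hF1 hF2 using h1
  have hcard : #(Finset S × ℕ × ℕ) < #(ℕ → Bool) := by
    have hb : #(ℕ → Bool) = 𝔠 := by simp
    rw [hb, mk_prod, mk_prod]
    simp only [lift_id, mk_eq_aleph0, aleph0_mul_aleph0]
    refine mul_lt_of_lt aleph0_le_continuum ?_ aleph0_lt_continuum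
    rcases finite_or_infinite S with hfin | hinfS
    · exact (lt_aleph0_of_finite _).trans aleph0_lt_continuum
    · rw [mk_finset_of_infinite]; exact hS
  obtain ⟨⟨F0, j0, q0⟩, hfib⟩ := exists_infinite_fiber (fun e => (F e, j e, q e)) hcard
  have hinfset : ((fun e => (F e, j e, q e)) ⁻¹' {(F0, j0, q0)}).Infinite := Set.infinite_coe_iff.mp hfib
  obtain ⟨e0, he0⟩ := hinfset.nonempty
  have heq : ∀ e ∈ (fun e => (F e, j e, q e)) ⁻¹' {(F0, j0, q0)}, F e = F0 ∧ j e = j0 ∧ q e = q0 := by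
    intro e he
    have : (F e, j e, q e) = (F0, j0, q0) := he
    exact ⟨congrArg Prod.fst this, congrArg (fun p => p.2.1) this, congrArg (fun p => p.2.2) this⟩
  have hfreq : ∃ᶠ m in atTop, PF (Λ j0) (c j0) m (1 / ((q0 : ℝ) + 1)) (F0.map (Function.Embedding.subtype _)) := by
    obtain ⟨a1, a2, a3⟩ := heq e0 he0
    have := hF1 e0
    rw [a1, a2, a3] at this
    exact this
  have hfb := finite_bad (hc j0) cc hinj
    (fun e e' hne => by
      have := hccG e e' hne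
      have h3 : ∀ j, Tendsto (fun m => ‖tpa (Λ j m) (c j m) (cc e - cc e')‖) atTop (𝓝 0) := by
        by_contra h4
        exact this h4
      exact h3 j0)
    (F0.map (Function.Embedding.subtype _)) (1 / ((q0 : ℝ) + 1)) (by positivity) hfreq
  refine hinfset (hfb.subset ?_)
  intro e he
  obtain ⟨a1, a2, a3⟩ := heq e he
  have := hF2 e
  rw [a1, a2, a3] at this
  exact this

open Cardinal in
lemma construct (hc : ∀ j m, ∑ n ∈ Λ j m, ‖c j m n‖ ≤ 1)
    (hs : ∀ j, Summable (fun m => ∑ n ∈ Λ j m, ‖c j m n‖ ^ 2)) :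
    ∃ X : Set ℝ, volume X ≠ 0 ∧ ∀ F : Finset ℝ, (F : Set ℝ) ⊆ X → ∀ j q : ℕ,
      ∃ᶠ m in atTop, PF (Λ j) (c j) m (1 / ((q : ℝ) + 1)) F := by
  classical
  let ι : Type := (𝔠 : Cardinal.{0}).ord.ToType
  have hι : #ι = 𝔠 := mk_ord_toType _
  let 𝒩 := {s : Set ℝ // MeasurableSet s ∧ volume s = 0}
  have h𝒩 : #𝒩 ≤ #ι := by
    rw [hι]
    obtain ⟨b, hbc, hb⟩ := MeasurableSpace.CountablyGenerated.isCountablyGenerated (α := ℝ)
    have h1 : #b ≤ 𝔠 := (le_aleph0_iff_set_countable.mpr hbc).trans aleph0_le_continuum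
    have h2 := @MeasurableSpace.cardinal_measurableSet_le_continuum ℝ b h1
    rw [← hb] at h2
    refine le_trans ?_ h2
    exact mk_le_of_injective (f := fun s : 𝒩 => (⟨s.1, s.2.1⟩ : {t : Set ℝ | MeasurableSet t}))
      (fun s s' h => Subtype.ext (by have := Subtype.ext_iff.mp h; exact this))
  obtain ⟨emb⟩ := h𝒩
  have : Nonempty 𝒩 := ⟨⟨∅, MeasurableSet.empty, measure_empty⟩⟩
  let N : ι → Set ℝ := fun i => (Function.invFun emb i).1
  have hN : ∀ i, volume (N i) = 0 := fun i => (Function.invFun emb i).2.2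
  have hcard : ∀ (i : ι) (ih : ∀ j, j < i → ℝ), #(Set.range (fun j : Set.Iio i => ih j.1 j.2)) < 𝔠 := by
    intro i ih
    exact mk_range_le.trans_lt (mk_Iio_toType_ord_lt i)
  let f : ∀ i : ι, (∀ j, j < i → ℝ) → ℝ := fun i ih =>
    Classical.choose (extend hc hs _ (hcard i ih) (N i) (hN i))
  have hf : ∀ i ih, Ext Λ c (Set.range (fun j : Set.Iio i => ih j.1 j.2)) (N i) (f i ih) := fun i ih =>
    Classical.choose_spec (extend hc hs _ (hcard i ih) (N i) (hN i))
  let x : ι → ℝ := (wellFounded_lt (α := ι)).fix f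
  have hx : ∀ i, x i = f i (fun j _ => x j) := fun i => WellFounded.fix_eq _ _ _
  have hxE : ∀ i, Ext Λ c (Set.range (fun j : Set.Iio i => x j.1)) (N i) (x i) := by
    intro i
    rw [hx i]
    exact hf i (fun j _ => x j)
  refine ⟨Set.range x, ?_, ?_⟩
  · intro h0
    let s : 𝒩 := ⟨toMeasurable volume (Set.range x), measurableSet_toMeasurable _ _, by rw [measure_toMeasurable]; exact h0⟩
    have h1 : N (emb s) = s.1 := by
      show (Function.invFun emb (emb s)).1 = s.1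
      rw [Function.leftInverse_invFun emb.injective s]
    apply (hxE (emb s)).1
    rw [h1]
    exact subset_toMeasurable _ _ ⟨_, rfl⟩
  · have hI : ∀ I : Finset ι, ∀ j q : ℕ, ∃ᶠ m in atTop, PF (Λ j) (c j) m (1 / ((q : ℝ) + 1)) (I.image x) := by
      intro I
      induction I using Finset.induction_on_max with
      | empty =>
        intro j q
        apply Eventually.frequently
        exact Eventually.of_forall fun m y hy => by simp at hy
      | insert a I hlt ih =>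
        intro j q
        have h2 := (hxE a).2 (I.image x) (by
          intro y hy
          obtain ⟨i, hi, rfl⟩ := Finset.mem_image.mp (Finset.mem_coe.mp hy)
          exact ⟨⟨i, hlt i hi⟩, rfl⟩) j q (ih j q)
        rw [Finset.image_insert]
        convert h2
    intro F hF j q
    rw [← Set.image_univ] at hF
    obtain ⟨I, -, rfl⟩ := Finset.subset_set_image_iff.mp hF
    exact hI I j q

end Main

/-- Main construction: a set that is not Lebesgue null, all of whose translates meet the set where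
the trigonometric polynomials stay large in a countable set. -/
theorem main_core (Λ : ℕ → ℕ → Finset ℤ) (c : ℕ → ℕ → ℤ → ℂ)
    (h1 : ∀ j m, ∑ n ∈ Λ j m, ‖c j m n‖ ≤ 1)
    (h2 : ∀ j, Tendsto (fun m => ∑ n ∈ Λ j m, ‖c j m n‖ ^ 2) atTop (𝓝 0)) :
    ∃ X : Set ℝ, volume X ≠ 0 ∧ ∀ t : ℝ, (((fun x => x + t) '' X) ∩
      {x | ∃ j, ∃ ε > 0, ∀ᶠ m in atTop, ε ≤ ‖tp (Λ j m) (c j m) x‖}).Countable := by
  classical
  have hφ : ∀ j, ∃ φ : ℕ → ℕ, StrictMono φ ∧ ∀ m, ∑ n ∈ Λ j (φ m), ‖c j (φ m) n‖ ^ 2 < (1 / 2 : ℝ) ^ m := by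
    intro j
    apply extraction_forall_of_eventually (P := fun m k => ∑ n ∈ Λ j k, ‖c j k n‖ ^ 2 < (1 / 2 : ℝ) ^ m)
    intro m
    exact (h2 j).eventually_lt_const (by positivity)
  choose φ hφm hφs using hφ
  obtain ⟨X, hX0, hX⟩ := construct (Λ := fun j m => Λ j (φ j m)) (c := fun j m => c j (φ j m))
    (fun j m => h1 j _) (fun j => Summable.of_nonneg_of_le (fun m => by positivity) (fun m => (hφs j m).le) summable_geometric_two)
  refine ⟨X, hX0, fun t => ?_⟩
  have hfin : ∀ j q M : ℕ, {y | y - t ∈ X ∧ ∀ m ≥ M, 1 / ((q : ℝ) + 1) ≤ ‖tp (Λ j (φ j m)) (c j (φ j m)) y‖}.Finite := by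
    intro j q M
    by_contra hinf
    have hinf' : {y | y - t ∈ X ∧ ∀ m ≥ M, 1 / ((q : ℝ) + 1) ≤ ‖tp (Λ j (φ j m)) (c j (φ j m)) y‖}.Infinite := hinf
    set ε : ℝ := 1 / ((q : ℝ) + 1) with hε
    have hεpos : 0 < ε := by positivity
    obtain ⟨K, hK⟩ := exists_nat_gt (2 / ε ^ 2)
    obtain ⟨F, hF, hFc⟩ := hinf'.exists_subset_card_eq K
    obtain ⟨q', hq'⟩ := exists_nat_one_div_lt (show (0 : ℝ) < ε ^ 2 / 2 by positivity)
    let F' := F.image (fun y => y - t)
    have hF'c : F'.card = K := by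
      rw [Finset.card_image_of_injective _ (sub_left_injective), hFc]
    have hF'X : (F' : Set ℝ) ⊆ X := by
      intro z hz
      obtain ⟨y, hy, rfl⟩ := Finset.mem_image.mp (Finset.mem_coe.mp hz)
      exact (hF hy).1
    obtain ⟨m, hm1, hm2⟩ := ((hX F' hF'X j q').and_eventually (eventually_ge_atTop M)).exists
    have hb := bessel (Λ j (φ j m)) (c j (φ j m)) (h1 j _) F' t ε (1 / ((q' : ℝ) + 1)) hεpos.le (by positivity)
      (by
        intro z hz
        obtain ⟨y, hy, rfl⟩ := Finset.mem_image.mp hz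
        have := (hF hy).2 m hm2
        simpa using this) hm1
    rw [hF'c] at hb
    rw [div_lt_iff₀ (by positivity)] at hK
    have hK0 : (0 : ℝ) < K := by
      by_contra h
      have : (K : ℝ) ≤ 0 := not_lt.mp h
      nlinarith [sq_nonneg ε]
    nlinarith
  have hcount : (⋃ j : ℕ, ⋃ q : ℕ, ⋃ M : ℕ, {y | y - t ∈ X ∧ ∀ m ≥ M, 1 / ((q : ℝ) + 1) ≤ ‖tp (Λ j (φ j m)) (c j (φ j m)) y‖}).Countable :=
    Set.countable_iUnion fun j => Set.countable_iUnion fun q => Set.countable_iUnion fun M => (hfin j q M).countable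
  refine hcount.mono ?_
  rintro _ ⟨⟨x, hx, rfl⟩, j, ε, hε, hev⟩
  obtain ⟨q, hq⟩ := exists_nat_one_div_lt hε
  obtain ⟨M, hM⟩ := eventually_atTop.mp ((hφm j).tendsto_atTop.eventually hev)
  simp only [Set.mem_iUnion]
  exact ⟨j, q, M, by simpa using hx, fun m hm => hq.le.trans (hM m hm)⟩

end Pool.MP_db9878_lc.LargeAverages
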