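import Mathlib

set_option autoImplicit false

open Filter Topology MeasureTheory

namespace Pool.MP_db9878_lc.LargeAverages

section Spread

variable {E : Type*} [NormedAddCommGroup E] [NormedSpace ℝ E]

/-- admissible weights -/
def WW (N : ℕ) : Set (ℕ →₀ ℝ) :=
  {w | (∀ k, 0 ≤ w k) ∧ (∀ k < N, w k = 0) ∧ w.sum (fun _ a => a) = 1}

lemma sum_lin (w : ℕ →₀ ℝ) : w.sum (fun _ a => a) = Finsupp.linearCombination ℝ (fun _ : ℕ => (1 : ℝ)) w := by
  rw [Finsupp.linearCombination_apply]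
  simp

lemma WW_le_one {N : ℕ} {w : ℕ →₀ ℝ} (hw : w ∈ WW N) (k : ℕ) : w k ≤ 1 := by
  obtain ⟨h0, -, h1⟩ := hw
  by_cases hk : k ∈ w.support
  · rw [← h1]
    exact Finset.single_le_sum (f := fun i => w i) (fun i _ => h0 i) hk
  · rw [Finsupp.notMem_support_iff.mp hk]; norm_num

theorem spread [CompleteSpace E]
    (hpar : ∀ x y : E, ‖x + y‖ * ‖x + y‖ + ‖x - y‖ * ‖x - y‖ = 2 * (‖x‖ * ‖x‖ + ‖y‖ * ‖y‖))
    (v : ℕ → E) (C : ℝ) (hC : ∀ k, ‖v k‖ ≤ C) :
    ∃ h : E, ∃ u : ℕ → (ℕ →₀ ℝ), (∀ m, u m ∈ WW 0) ∧ (∀ m k, u m k ≤ 1 / ((m : ℝ) + 1)) ∧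
      Tendsto (fun m => Finsupp.linearCombination ℝ v (u m)) atTop (𝓝 h) := by
  classical
  let V := Finsupp.linearCombination ℝ v
  let D : ℕ → ℝ := fun N => sInf ((fun w => ‖V w‖ ^ 2) '' WW N)
  have hsingle : ∀ N, Finsupp.single N (1 : ℝ) ∈ WW N := by
    intro N
    refine ⟨fun k => ?_, fun k hk => ?_, ?_⟩
    · rw [Finsupp.single_apply]; split_ifs <;> norm_num
    · rw [Finsupp.single_apply, if_neg (by omega)]
    · simp
  have hbdd : ∀ N, BddBelow ((fun w => ‖V w‖ ^ 2) '' WW N) := fun N =>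
    ⟨0, by rintro _ ⟨w, -, rfl⟩; positivity⟩
  have hmono : Monotone D := by
    intro N M hNM
    refine csInf_le_csInf (hbdd N) ⟨_, ⟨_, hsingle M, rfl⟩⟩ ?_
    rintro _ ⟨w, hw, rfl⟩
    exact ⟨w, ⟨hw.1, fun k hk => hw.2.1 k (lt_of_lt_of_le hk hNM), hw.2.2⟩, rfl⟩
  have hDle : ∀ N, D N ≤ C ^ 2 := by
    intro N
    refine (csInf_le (hbdd N) ⟨_, hsingle N, rfl⟩).trans ?_
    have : V (Finsupp.single N 1) = v N := by simp [V]
    simp only [this]
    exact pow_le_pow_left₀ (norm_nonneg _) (hC N) 2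
  have hchoose : ∀ N, ∃ w ∈ WW N, ‖V w‖ ^ 2 < D N + 1 / ((N : ℝ) + 1) := by
    intro N
    have hlt : sInf ((fun w => ‖V w‖ ^ 2) '' WW N) < D N + 1 / ((N : ℝ) + 1) := by
      have : 0 < 1 / ((N : ℝ) + 1) := by positivity
      simp only [D]; linarith
    obtain ⟨_, ⟨w, hw, rfl⟩, hlt'⟩ := exists_lt_of_csInf_lt (Set.Nonempty.image _ ⟨_, hsingle N⟩) hlt
    exact ⟨w, hw, hlt'⟩
  choose w hwW hwD using hchoose
  have key : ∀ N M, N ≤ M → ‖V (w N) - V (w M)‖ ^ 2 ≤ 2 * (D M - D N) + 2 / ((N : ℝ) + 1) + 2 / ((M : ℝ) + 1) := by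
    intro N M hNM
    have hz : (1 / 2 : ℝ) • (w N + w M) ∈ WW N := by
      refine ⟨fun k => ?_, fun k hk => ?_, ?_⟩
      · have a1 := (hwW N).1 k
        have a2 := (hwW M).1 k
        simp only [Finsupp.smul_apply, Finsupp.add_apply, smul_eq_mul]
        linarith
      · have a1 := (hwW N).2.1 k hk
        have a2 := (hwW M).2.1 k (lt_of_lt_of_le hk hNM)
        simp only [Finsupp.smul_apply, Finsupp.add_apply, smul_eq_mul, a1, a2]
        norm_num
      · rw [sum_lin, map_smul, map_add, ← sum_lin, ← sum_lin, (hwW N).2.2, (hwW M).2.2]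
        norm_num
    have h1 : D N ≤ ‖V ((1 / 2 : ℝ) • (w N + w M))‖ ^ 2 := csInf_le (hbdd N) ⟨_, hz, rfl⟩
    rw [map_smul, map_add, norm_smul] at h1
    have h2 := hpar (V (w N)) (V (w M))
    have h3 := hwD N
    have h4 := hwD M
    have h5 : ‖(1 / 2 : ℝ)‖ = 1 / 2 := by norm_num
    rw [h5] at h1
    have e1 : 2 / ((N : ℝ) + 1) = 2 * (1 / ((N : ℝ) + 1)) := by ring
    have e2 : 2 / ((M : ℝ) + 1) = 2 * (1 / ((M : ℝ) + 1)) := by ring
    rw [e1, e2]
    nlinarith
  have hconv : Tendsto D atTop (𝓝 (⨆ N, D N)) :=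
    tendsto_atTop_ciSup hmono ⟨C ^ 2, by rintro _ ⟨N, rfl⟩; exact hDle N⟩
  have hsup : ∀ N, D N ≤ ⨆ N, D N := fun N => le_ciSup ⟨C ^ 2, by rintro _ ⟨N, rfl⟩; exact hDle N⟩ N
  have hcauchy : CauchySeq (fun N => V (w N)) := by
    refine cauchySeq_of_le_tendsto_0 (fun N => √(2 * ((⨆ N, D N) - D N) + 4 / ((N : ℝ) + 1))) ?_ ?_
    · have main : ∀ n m N : ℕ, N ≤ n → n ≤ m → dist (V (w n)) (V (w m)) ≤ √(2 * ((⨆ N, D N) - D N) + 4 / ((N : ℝ) + 1)) := by
        intro n m N hn hnm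
        rw [dist_eq_norm]
        apply Real.le_sqrt_of_sq_le
        refine (key n m hnm).trans ?_
        have a1 := hsup m
        have a2 := hmono hn
        have a3 : 2 / ((n : ℝ) + 1) ≤ 2 / ((N : ℝ) + 1) := by
          have : (N : ℝ) ≤ n := by exact_mod_cast hn
          gcongr
        have a4 : 2 / ((m : ℝ) + 1) ≤ 2 / ((N : ℝ) + 1) := by
          have : (N : ℝ) ≤ m := by exact_mod_cast hn.trans hnm
          gcongr
        have a5 : 4 / ((N : ℝ) + 1) = 2 / ((N : ℝ) + 1) + 2 / ((N : ℝ) + 1) := by ring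
        rw [a5]
        linarith
      intro n m N hn hm
      rcases le_total n m with h | h
      · exact main n m N hn h
      · rw [dist_comm]; exact main m n N hm h
    · have t1 : Tendsto (fun N : ℕ => 2 * ((⨆ N, D N) - D N) + 4 / ((N : ℝ) + 1)) atTop (𝓝 (2 * ((⨆ N, D N) - ⨆ N, D N) + 0)) := by
        refine ((tendsto_const_nhds.sub hconv).const_mul 2).add ?_
        have := (tendsto_one_div_add_atTop_nhds_zero_nat (𝕜 := ℝ)).const_mul 4
        simpa [div_eq_mul_inv] using this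
      have t2 := (Real.continuous_sqrt.tendsto _).comp t1
      simpa [Function.comp_def] using t2
  obtain ⟨h, hh⟩ := cauchySeq_tendsto_of_complete hcauchy
  let R : ℕ → ℕ := fun k => (w k).support.sup id + 1 + k
  let f : ℕ → ℕ := fun i => Nat.rec 0 (fun _ fi => R fi) i
  have hf1 : ∀ i, f (i + 1) = R (f i) := fun i => rfl
  have hfm : StrictMono f := strictMono_nat_of_lt_succ fun i => by rw [hf1]; simp only [R]; omega
  have hfi : ∀ i, i ≤ f i := hfm.id_le
  have hdisj : ∀ i i' k, i < i' → w (f i) k ≠ 0 → w (f i') k = 0 := by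
    intro i i' k hii hk
    have h1 : k ≤ (w (f i)).support.sup id := Finset.le_sup (f := id) (Finsupp.mem_support_iff.mpr hk)
    have h2 : f (i + 1) ≤ f i' := hfm.monotone hii
    rw [hf1] at h2
    simp only [R] at h2
    exact (hwW (f i')).2.1 k (by omega)
  let u : ℕ → (ℕ →₀ ℝ) := fun m => (1 / ((m : ℝ) + 1)) • ∑ i ∈ Finset.range (m + 1), w (f (m + i))
  have huk : ∀ m k, u m k = (1 / ((m : ℝ) + 1)) * ∑ i ∈ Finset.range (m + 1), w (f (m + i)) k := by
    intro m k
    simp only [u, Finsupp.smul_apply, smul_eq_mul, Finsupp.finsetSum_apply]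
  refine ⟨h, u, ?_, ?_, ?_⟩
  · intro m
    refine ⟨fun k => ?_, fun k hk => absurd hk (by omega), ?_⟩
    · rw [huk]
      have : 0 ≤ ∑ i ∈ Finset.range (m + 1), w (f (m + i)) k := Finset.sum_nonneg fun i _ => (hwW _).1 k
      positivity
    · rw [sum_lin, map_smul, map_sum]
      have : ∀ i ∈ Finset.range (m + 1), Finsupp.linearCombination ℝ (fun _ : ℕ => (1 : ℝ)) (w (f (m + i))) = 1 := by
        intro i _
        rw [← sum_lin]; exact (hwW _).2.2
      rw [Finset.sum_congr rfl this]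
      simp
      field_simp
  · intro m k
    rw [huk]
    have hle : ∑ i ∈ Finset.range (m + 1), w (f (m + i)) k ≤ 1 := by
      by_cases hall : ∀ i ∈ Finset.range (m + 1), w (f (m + i)) k = 0
      · rw [Finset.sum_eq_zero hall]; norm_num
      · push Not at hall
        obtain ⟨i0, hi0, hne⟩ := hall
        rw [Finset.sum_eq_single i0]
        · exact WW_le_one (hwW _) k
        · intro i _ hii
          rcases lt_or_gt_of_ne hii with hlt | hgt
          · by_contra hne2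
            exact hne (hdisj (m + i) (m + i0) k (by omega) hne2)
          · exact hdisj (m + i0) (m + i) k (by omega) hne
        · intro hcon; exact absurd hi0 hcon
    exact mul_le_of_le_one_right (by positivity) hle
  · rw [Metric.tendsto_atTop] at hh ⊢
    intro ε hε
    obtain ⟨N0, hN0⟩ := hh (ε / 2) (by positivity)
    refine ⟨N0, fun m hm => ?_⟩
    rw [dist_eq_norm]
    have hm1 : (0 : ℝ) < (m : ℝ) + 1 := by positivity
    have e1 : Finsupp.linearCombination ℝ v (u m) - h = (1 / ((m : ℝ) + 1)) • ∑ i ∈ Finset.range (m + 1), (V (w (f (m + i))) - h) := by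
      simp only [u, map_smul, map_sum, Finset.sum_sub_distrib, Finset.sum_const, Finset.card_range, smul_sub]
      congr 1
      rw [← Nat.cast_smul_eq_nsmul ℝ, smul_smul]
      push_cast
      rw [one_div, inv_mul_cancel₀ hm1.ne', one_smul]
    rw [e1, norm_smul, Real.norm_of_nonneg (by positivity)]
    have e2 : ‖∑ i ∈ Finset.range (m + 1), (V (w (f (m + i))) - h)‖ ≤ ((m : ℝ) + 1) * (ε / 2) := by
      refine (norm_sum_le _ _).trans ?_
      have : ∀ i ∈ Finset.range (m + 1), ‖V (w (f (m + i))) - h‖ ≤ ε / 2 := by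
        intro i _
        have := hN0 (f (m + i)) (hm.trans ((Nat.le_add_right m i).trans (hfi _)))
        rw [dist_eq_norm] at this
        exact this.le
      refine (Finset.sum_le_sum this).trans ?_
      simp
    calc 1 / ((m : ℝ) + 1) * ‖∑ i ∈ Finset.range (m + 1), (V (w (f (m + i))) - h)‖
        ≤ 1 / ((m : ℝ) + 1) * (((m : ℝ) + 1) * (ε / 2)) := by gcongr
      _ = ε / 2 := by field_simp
      _ < ε := by linarith

end Spread

end Pool.MP_db9878_lc.LargeAverages
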