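import Pool.Agent.H869.DetectCore
import Pool.Agent.H869.DetectSpread

set_option autoImplicit false

open Filter Topology MeasureTheory

namespace Pool.MP_db9878_lc.LargeAverages

/-- families of trigonometric polynomials -/
def Fam : Type := {p : (ℕ → Finset ℤ) × (ℕ → ℤ → ℂ) //
  (∀ m, ∑ n ∈ p.1 m, ‖p.2 m n‖ ≤ 1) ∧ Tendsto (fun m => ∑ n ∈ p.1 m, ‖p.2 m n‖ ^ 2) atTop (𝓝 0)}

/-- the set where the family stays large -/
def BB (p : Fam) : Set ℝ := {x | ∃ ε > 0, ∀ᶠ m in atTop, ε ≤ ‖tp (p.1.1 m) (p.1.2 m) x‖}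

lemma BB_meas (p : Fam) : MeasurableSet (BB p) := by
  have : BB p = ⋃ q : ℕ, ⋃ M : ℕ, ⋂ m : ℕ, ⋂ _ : M ≤ m, {x | 1 / ((q : ℝ) + 1) ≤ ‖tp (p.1.1 m) (p.1.2 m) x‖} := by
    ext x
    simp only [BB, Set.mem_iUnion, Set.mem_iInter]
    constructor
    · rintro ⟨ε, hε, hev⟩
      obtain ⟨q, hq⟩ := exists_nat_one_div_lt hε
      obtain ⟨M, hM⟩ := eventually_atTop.mp hev
      exact ⟨q, M, fun m hm => hq.le.trans (hM m hm)⟩
    · rintro ⟨q, M, h⟩
      exact ⟨1 / ((q : ℝ) + 1), by positivity, eventually_atTop.mpr ⟨M, fun m hm => h m hm⟩⟩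
  rw [this]
  refine MeasurableSet.iUnion fun q => MeasurableSet.iUnion fun M => MeasurableSet.iInter fun m =>
    MeasurableSet.iInter fun _ => ?_
  exact measurableSet_le measurable_const (tp_continuous _ _).norm.measurable

lemma exhaust (μ : Measure ℝ) [IsFiniteMeasure μ] :
    ∃ P : ℕ → Fam, ∀ p : Fam, μ (BB p ∩ (⋃ j, BB (P j))ᶜ) = 0 := by
  let p0 : Fam := ⟨(fun _ => ∅, fun _ _ => 0), by simp, by simp⟩
  let 𝒮 : Set ENNReal := Set.range (fun P : ℕ → Fam => μ (⋃ j, BB (P j)))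
  obtain ⟨a, -, ha1, ha2⟩ := exists_seq_tendsto_sSup (S := 𝒮) ⟨_, ⟨fun _ => p0, rfl⟩⟩ (OrderTop.bddAbove _)
  choose P hP using ha2
  let Q : ℕ → Fam := fun k => P (Nat.unpair k).1 (Nat.unpair k).2
  have hQ : ∀ n, μ (⋃ j, BB (P n j)) ≤ μ (⋃ j, BB (Q j)) := by
    intro n
    apply measure_mono
    intro x hx
    obtain ⟨j, hj⟩ := Set.mem_iUnion.mp hx
    refine Set.mem_iUnion.mpr ⟨Nat.pair n j, ?_⟩
    simp only [Q, Nat.unpair_pair]
    exact hj
  have hsup : sSup 𝒮 ≤ μ (⋃ j, BB (Q j)) := by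
    refine le_of_tendsto ha1 (Eventually.of_forall fun n => ?_)
    rw [← hP n]
    exact hQ n
  refine ⟨Q, fun p => ?_⟩
  have hmeas : MeasurableSet (⋃ j, BB (Q j)) := MeasurableSet.iUnion fun j => BB_meas _
  let Q' : ℕ → Fam := fun k => if k = 0 then p else Q (k - 1)
  have hU : (BB p ∩ (⋃ j, BB (Q j))ᶜ) ∪ (⋃ j, BB (Q j)) ⊆ ⋃ j, BB (Q' j) := by
    rintro x (⟨hx, -⟩ | hx)
    · exact Set.mem_iUnion.mpr ⟨0, by simpa [Q'] using hx⟩
    · obtain ⟨j, hj⟩ := Set.mem_iUnion.mp hx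
      exact Set.mem_iUnion.mpr ⟨j + 1, by simpa [Q'] using hj⟩
  have h1 : μ (BB p ∩ (⋃ j, BB (Q j))ᶜ) + μ (⋃ j, BB (Q j)) ≤ sSup 𝒮 := by
    rw [← measure_union]
    · exact (measure_mono hU).trans (le_sSup ⟨Q', rfl⟩)
    · exact Set.disjoint_left.mpr fun x hx hx' => hx.2 hx'
    · exact hmeas
  have h2 : μ (BB p ∩ (⋃ j, BB (Q j))ᶜ) + μ (⋃ j, BB (Q j)) ≤ 0 + μ (⋃ j, BB (Q j)) := by
    rw [zero_add]; exact h1.trans hsup
  have h3 := (ENNReal.add_le_add_iff_right (measure_ne_top μ _)).mp h2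
  exact nonpos_iff_eq_zero.mp h3

lemma local_family (μ : Measure ℝ) [IsFiniteMeasure μ] (A : Set ℝ) (hA : MeasurableSet A)
    (hnR : ¬ Tendsto (fun n : ℤ => ∫ x in A, ee (n * x) ∂μ) cofinite (𝓝 0)) :
    ∃ p : Fam, μ (BB p ∩ A) ≠ 0 := by
  classical
  rw [Metric.tendsto_nhds] at hnR
  push Not at hnR
  obtain ⟨δ, hδ, hfreq⟩ := hnR
  have hfreq' : ∃ᶠ n : ℤ in cofinite, δ ≤ ‖∫ x in A, ee (n * x) ∂μ‖ := by
    simpa [dist_eq_norm] using hfreq
  rw [frequently_cofinite_iff_infinite] at hfreq'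
  let σe := hfreq'.natEmbedding
  let σ : ℕ → ℤ := fun k => (σe k).1
  have hσinj : Function.Injective σ := fun a b h => σe.injective (Subtype.ext h)
  have hσ : ∀ k, δ ≤ ‖∫ x in A, ee (σ k * x) ∂μ‖ := fun k => (σe k).2
  choose θf hθ1 hθ2 using unim
  let θ : ℕ → ℂ := fun k => θf (∫ x in A, ee (σ k * x) ∂μ)
  let g : ℕ → ℝ → ℂ := fun k x => θ k * ee (σ k * x)
  have hgc : ∀ k, Continuous (g k) := fun k =>
    continuous_const.mul (ee_continuous.comp (continuous_const.mul continuous_id))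
  have hgb : ∀ k x, ‖g k x‖ ≤ 1 := by
    intro k x
    simp only [g]
    rw [norm_mul, ee_norm, mul_one]
    exact hθ1 _
  have hgL : ∀ k, MemLp (g k) 2 μ := fun k =>
    MemLp.of_bound (hgc k).aestronglyMeasurable 1 (Eventually.of_forall (hgb k))
  let v : ℕ → Lp ℂ 2 μ := fun k => (hgL k).toLp (g k)
  have hv : ∀ k, v k =ᵐ[μ] g k := fun k => MemLp.coeFn_toLp _
  have hvb : ∀ k, ‖v k‖ ≤ (measureUnivNNReal μ : ℝ) ^ (2 : ENNReal).toReal⁻¹ * 1 := by
    intro k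
    apply Lp.norm_le_of_ae_bound zero_le_one
    filter_upwards [hv k] with x hx
    rw [hx]; exact hgb k x
  obtain ⟨h, u, hu1, hu2, hu3⟩ := spread (E := Lp ℂ 2 μ) (parallelogram_law_with_norm_mul ℂ) v _ hvb
  obtain ⟨ns, hns, hae⟩ := (tendstoInMeasure_of_tendsto_Lp hu3).exists_seq_tendsto_ae
  -- the functions
  have hV : ∀ w : ℕ →₀ ℝ, (Finsupp.linearCombination ℝ v w : Lp ℂ 2 μ) =ᵐ[μ] fun x => ∑ k ∈ w.support, (w k : ℂ) * g k x := by
    intro w
    rw [Finsupp.linearCombination_apply, Finsupp.sum]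
    refine (Lp.coeFn_fun_finsetSum _ _).trans ?_
    have : ∀ᵐ x ∂μ, ∀ k ∈ w.support, (w k • v k : Lp ℂ 2 μ) x = (w k : ℂ) * g k x := by
      rw [Filter.eventually_all_finset]
      intro k _
      filter_upwards [Lp.coeFn_smul (w k) (v k), hv k] with x h1 h2
      rw [h1, Pi.smul_apply, h2]
      simp
    filter_upwards [this] with x hx
    exact Finset.sum_congr rfl hx
  -- integral over A
  have hint : ∀ w ∈ WW 0, δ ≤ (∫ x in A, (Finsupp.linearCombination ℝ v w : Lp ℂ 2 μ) x ∂μ).re := by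
    intro w hw
    have e1 : ∫ x in A, (Finsupp.linearCombination ℝ v w : Lp ℂ 2 μ) x ∂μ = ∫ x in A, ∑ k ∈ w.support, (w k : ℂ) * g k x ∂μ :=
      integral_congr_ae (ae_restrict_of_ae (hV w))
    have hgi : ∀ k, Integrable (g k) (μ.restrict A) := fun k =>
      ((hgL k).integrable (by norm_num)).integrableOn
    rw [e1, integral_finsetSum _ (fun k _ => (hgi k).const_mul _)]
    have e2 : ∀ k, ∫ x in A, (w k : ℂ) * g k x ∂μ = ((w k * ‖∫ x in A, ee (σ k * x) ∂μ‖ : ℝ) : ℂ) := by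
      intro k
      rw [integral_const_mul]
      simp only [g]
      rw [integral_const_mul, hθ2]
      push_cast
      rfl
    simp_rw [e2]
    rw [← Complex.ofReal_sum, Complex.ofReal_re]
    obtain ⟨w0, -, w1⟩ := hw
    calc δ = ∑ k ∈ w.support, w k * δ := by
          rw [← Finset.sum_mul]
          have : ∑ k ∈ w.support, w k = 1 := w1
          rw [this, one_mul]
      _ ≤ ∑ k ∈ w.support, w k * ‖∫ x in A, ee (σ k * x) ∂μ‖ :=
          Finset.sum_le_sum fun k _ => mul_le_mul_of_nonneg_left (hσ k) (w0 k)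
  have hlim : δ ≤ (∫ x in A, h x ∂μ).re := by
    have hcont : Continuous (fun f : Lp ℂ 2 μ => (inner ℂ (indicatorConstLp 2 hA (measure_ne_top μ A) (1 : ℂ)) f).re) :=
      Complex.continuous_re.comp (continuous_const.inner continuous_id)
    have ht := (hcont.tendsto h).comp hu3
    have hge : ∀ᶠ m in atTop, δ ≤ ((fun f : Lp ℂ 2 μ => (inner ℂ (indicatorConstLp 2 hA (measure_ne_top μ A) (1 : ℂ)) f).re) ∘ fun m => Finsupp.linearCombination ℝ v (u m)) m := by
      refine Eventually.of_forall fun m => ?_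
      simp only [Function.comp]
      rw [L2.inner_indicatorConstLp_one]
      exact hint _ (hu1 m)
    have := ge_of_tendsto ht hge
    simp only [L2.inner_indicatorConstLp_one] at this
    exact this
  -- the family
  let σi : ℤ → ℕ := Function.invFun σ
  have hσi : ∀ k, σi (σ k) = k := Function.leftInverse_invFun hσinj
  let Λ : ℕ → Finset ℤ := fun m => (u (ns m)).support.image σ
  let c : ℕ → ℤ → ℂ := fun m n => (u (ns m) (σi n) : ℂ) * θ (σi n)
  have hu0 : ∀ m k, 0 ≤ u m k := fun m => (hu1 m).1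
  have husum : ∀ m, ∑ k ∈ (u m).support, u m k = 1 := fun m => (hu1 m).2.2
  have hcn : ∀ m k, ‖c m (σ k)‖ ≤ u (ns m) k := by
    intro m k
    simp only [c, hσi]
    rw [norm_mul, Complex.norm_real, Real.norm_of_nonneg (hu0 _ _)]
    exact mul_le_of_le_one_right (hu0 _ _) (hθ1 _)
  have hs1 : ∀ m, ∑ n ∈ Λ m, ‖c m n‖ ≤ 1 := by
    intro m
    simp only [Λ]
    rw [Finset.sum_image (fun a _ b _ hab => hσinj hab), ← husum (ns m)]
    exact Finset.sum_le_sum fun k _ => hcn m k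
  have hs2 : ∀ m, ∑ n ∈ Λ m, ‖c m n‖ ^ 2 ≤ 1 / ((ns m : ℝ) + 1) := by
    intro m
    simp only [Λ]
    rw [Finset.sum_image (fun a _ b _ hab => hσinj hab)]
    calc ∑ k ∈ (u (ns m)).support, ‖c m (σ k)‖ ^ 2 ≤ ∑ k ∈ (u (ns m)).support, 1 / ((ns m : ℝ) + 1) * u (ns m) k := by
          apply Finset.sum_le_sum
          intro k _
          have h1 := hcn m k
          have h2 := hu2 (ns m) k
          have h3 := hu0 (ns m) k
          have h4 := norm_nonneg (c m (σ k))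
          calc ‖c m (σ k)‖ ^ 2 = ‖c m (σ k)‖ * ‖c m (σ k)‖ := sq _
            _ ≤ (1 / ((ns m : ℝ) + 1)) * u (ns m) k := mul_le_mul (h1.trans h2) h1 h4 (by positivity)
      _ = 1 / ((ns m : ℝ) + 1) := by rw [← Finset.mul_sum, husum, mul_one]
  have hs3 : Tendsto (fun m => ∑ n ∈ Λ m, ‖c m n‖ ^ 2) atTop (𝓝 0) := by
    refine squeeze_zero (fun m => by positivity) hs2 ?_
    exact (tendsto_one_div_add_atTop_nhds_zero_nat (𝕜 := ℝ)).comp hns.tendsto_atTop
  have htp : ∀ m x, tp (Λ m) (c m) x = ∑ k ∈ (u (ns m)).support, (u (ns m) k : ℂ) * g k x := by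
    intro m x
    unfold tp
    simp only [Λ]
    rw [Finset.sum_image (fun a _ b _ hab => hσinj hab)]
    apply Finset.sum_congr rfl
    intro k _
    simp only [c, hσi, g]
    ring
  refine ⟨⟨(Λ, c), hs1, hs3⟩, ?_⟩
  intro hzero
  have hh0 : ∀ᵐ x ∂(μ.restrict A), h x = 0 := by
    rw [ae_restrict_iff' hA]
    have hall : ∀ᵐ x ∂μ, ∀ m, (Finsupp.linearCombination ℝ v (u (ns m)) : Lp ℂ 2 μ) x = ∑ k ∈ (u (ns m)).support, (u (ns m) k : ℂ) * g k x :=
      ae_all_iff.mpr fun m => hV _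
    have hnot : ∀ᵐ x ∂μ, x ∉ BB ⟨(Λ, c), hs1, hs3⟩ ∩ A := measure_eq_zero_iff_ae_notMem.mp hzero
    filter_upwards [hae, hall, hnot] with x hx1 hx2 hx3 hxA
    by_contra hne
    apply hx3
    refine ⟨⟨‖h x‖ / 2, by have := norm_pos_iff.mpr hne; positivity, ?_⟩, hxA⟩
    have ht : Tendsto (fun m => ‖tp (Λ m) (c m) x‖) atTop (𝓝 ‖h x‖) := by
      have : (fun m => ‖tp (Λ m) (c m) x‖) = fun m => ‖(Finsupp.linearCombination ℝ v (u (ns m)) : Lp ℂ 2 μ) x‖ := by
        funext m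
        rw [htp, hx2]
      rw [this]
      exact hx1.norm
    have hlt : ‖h x‖ / 2 < ‖h x‖ := by have := norm_pos_iff.mpr hne; linarith
    filter_upwards [ht.eventually_const_lt hlt] with m hm
    exact hm.le
  have : ∫ x in A, h x ∂μ = 0 := by
    rw [integral_congr_ae hh0]; simp
  rw [this] at hlim
  simp at hlim
  linarith

/-- Main theorem: every finite Borel measure splits into a piece with vanishing coefficients at
infinity and a piece that is not detected by translates of some set of positive outer measure. -/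
theorem splitting (μ : Measure ℝ) [IsFiniteMeasure μ] :
    ∃ B X : Set ℝ, MeasurableSet B ∧ volume X ≠ 0 ∧
      (∀ t : ℝ, (((fun x => x + t) '' X) ∩ B).Countable) ∧
      ∀ A : Set ℝ, A ⊆ Bᶜ → MeasurableSet A →
        Tendsto (fun n : ℤ => ∫ x in A, ee (n * x) ∂μ) cofinite (𝓝 0) := by
  obtain ⟨P, hP⟩ := exhaust μ
  obtain ⟨X, hX0, hX⟩ := main_core (fun j => (P j).1.1) (fun j => (P j).1.2) (fun j => (P j).2.1) (fun j => (P j).2.2)
  refine ⟨⋃ j, BB (P j), X, MeasurableSet.iUnion fun j => BB_meas _, hX0, fun t => ?_, ?_⟩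
  · refine (hX t).mono ?_
    rintro y ⟨hy1, hy2⟩
    obtain ⟨j, hj⟩ := Set.mem_iUnion.mp hy2
    exact ⟨hy1, j, hj⟩
  · intro A hAB hA
    by_contra hnR
    obtain ⟨p, hp⟩ := local_family μ A hA hnR
    apply hp
    exact measure_mono_null (Set.inter_subset_inter_right _ hAB) (hP p)

end Pool.MP_db9878_lc.LargeAverages
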